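import Mathlib

/-!
# Four isolated fixed points in complex dimension nine

Kosniowski's conjecture says that a unitary circle manifold of real dimension `2 n` with isolated
fixed points which is not a boundary has at least `[n/2] + 1` fixed points. We exhibit isolated
fixed point data of complex dimension `n = 9` with only `4 < 5 = [9/2] + 1` fixed points, for which
all equivariant `K`-theoretic characteristic numbers are integral, and whose Chern number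
`c_3 ^ 3` is `-201600`, which is not zero.

The fixed points, with sign and weights, are
`+ (1, 1, 1, 1, 1, 1, 1, 9, -10)`, `+ (1, 1, 1, 1, 1, 1, -1, -9, 10)`,
`- (1, 1, 1, 1, 1, 1, 5, 6, -11)`, `- (1, 1, 1, 1, 1, 1, -5, -6, 11)`.

The two last triples `(a, -a)` are the weights of the circle at the two fixed points of
`S^6 = G_2 / SU(3)`. As `1 + 81 + 100 = 25 + 36 + 121`, the two circle actions on `S^6` become
indistinguishable for characteristic classes up to order `(1 - t) ^ 6`, and the data is that of a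
bundle over `S^12` with fibre `S^6`, the circle acting on `S^12` with the weights
`(1, 1, 1, 1, 1, 1)`.
-/

namespace Pool.Agent.Results.MP_05b3ef_gt.FourPoints

open MvPolynomial

/-- The field `ℚ(t)`; `t = RatFunc.X` is the standard character of the circle. -/
abbrev Qt := RatFunc ℚ

/-- The subring `ℤ[t, t⁻¹]` of `ℚ(t)`: the representation ring of the circle. -/
noncomputable def laurent : Subring Qt := Subring.closure {RatFunc.X, RatFunc.X⁻¹}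

/-- Isolated fixed point data of a unitary circle manifold of real dimension `2 n` with `m`
fixed points: for every fixed point a sign and the `n` non-zero integer weights of the complex
tangent representation. -/
structure FixedPointData (n m : ℕ) where
  sign : Fin m → ℤˣ
  weight : Fin m → Fin n → ℤ
  weight_ne_zero : ∀ p i, weight p i ≠ 0

namespace FixedPointData

variable {n m : ℕ} (D : FixedPointData n m)

/-- The contribution of the fixed point `p` to the equivariant `K`-theoretic characteristic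
number attached to the class `f(x_1, ..., x_n) (x_1 ⋯ x_n)^k`:
`ε_p f(t^{w_1}, ..., t^{w_n}) t^{k (w_1 + ⋯ + w_n)} / ∏ (1 - t^{-w_i})`. -/
noncomputable def contribution (f : MvPolynomial (Fin n) ℤ) (k : ℤ) (p : Fin m) : Qt :=
  (((D.sign p : ℤˣ) : ℤ) : Qt) * aeval (fun i => (RatFunc.X : Qt) ^ D.weight p i) f
    * (RatFunc.X : Qt) ^ (k * ∑ i, D.weight p i)
    / ∏ i, (1 - (RatFunc.X : Qt) ^ (-D.weight p i))

/-- All `K`-theoretic characteristic numbers of the data are integral (lie in `ℤ[t, t⁻¹]`). -/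
def IsIntegral : Prop :=
  ∀ f : MvPolynomial (Fin n) ℤ, f.IsSymmetric → ∀ k : ℤ,
    ∑ p, D.contribution f k p ∈ laurent

/-- At every fixed point the greatest common divisor of the weights is one. -/
def IsEffective : Prop := ∀ p, Finset.univ.gcd (fun i => (D.weight p i).natAbs) = 1

/-- The Chern number `⟨c_1^{r_1} ⋯ c_n^{r_n}, [M]⟩ = ∑_p ε_p ∏_j e_j(w)^{r_j} / ∏_i w_i`
(the exponent of `c_{j+1}` is `r j`). -/
noncomputable def chernNumber (r : Fin n → ℕ) : ℚ :=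
  ∑ p, (((D.sign p : ℤˣ) : ℤ) : ℚ) *
    ((∏ j : Fin n, (eval (D.weight p) (esymm (Fin n) ℤ ((j : ℕ) + 1))) ^ r j : ℤ) : ℚ)
    / ((∏ i, D.weight p i : ℤ) : ℚ)

/-- Some Chern number of the data is non-zero. -/
def HasNonzeroChernNumber : Prop :=
  ∃ r : Fin n → ℕ, ∑ j : Fin n, ((j : ℕ) + 1) * r j = n ∧ D.chernNumber r ≠ 0

end FixedPointData

/-! ### Laurent polynomials -/

/-- The variable of `ℚ(t)`. -/
noncomputable def T : Qt := RatFunc.X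

lemma T_ne_zero : T ≠ 0 := RatFunc.X_ne_zero

lemma T_mem : T ∈ laurent := Subring.subset_closure (by simp [T])

lemma T_inv_mem : T⁻¹ ∈ laurent := Subring.subset_closure (by simp [T])

lemma T_zpow_mem (k : ℤ) : T ^ k ∈ laurent := by
  obtain ⟨n, rfl | rfl⟩ := k.eq_nat_or_neg
  · rw [zpow_natCast]; exact pow_mem T_mem n
  · rw [zpow_neg, zpow_natCast, ← inv_pow]; exact pow_mem T_inv_mem n

lemma T_pow_ne_one {n : ℕ} (hn : n ≠ 0) : T ^ n ≠ 1 := by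
  intro h
  have h1 : algebraMap (Polynomial ℚ) Qt (Polynomial.X ^ n) = algebraMap (Polynomial ℚ) Qt 1 := by
    rw [map_pow, RatFunc.algebraMap_X, map_one]
    exact h
  have h2 := RatFunc.algebraMap_injective ℚ h1
  have h3 := congrArg Polynomial.natDegree h2
  rw [Polynomial.natDegree_X_pow, Polynomial.natDegree_one] at h3
  exact hn h3

lemma T_zpow_ne_one {k : ℤ} (hk : k ≠ 0) : T ^ k ≠ 1 := by
  obtain ⟨n, rfl | rfl⟩ := k.eq_nat_or_neg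
  · rw [zpow_natCast]; exact T_pow_ne_one (by simpa using hk)
  · rw [zpow_neg, zpow_natCast, ne_eq, inv_eq_one]
    exact T_pow_ne_one (by simpa using hk)

/-- Congruence modulo `(1 - t)^6` of elements of `ℤ[t, t⁻¹]`. -/
def Cong (x y : Qt) : Prop := ∃ z ∈ laurent, x - y = (1 - T) ^ 6 * z

lemma Cong.refl (x : Qt) : Cong x x := ⟨0, zero_mem _, by simp⟩

lemma Cong.add {x y x' y' : Qt} (h : Cong x y) (h' : Cong x' y') : Cong (x + x') (y + y') := by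
  obtain ⟨z, hz, e⟩ := h
  obtain ⟨z', hz', e'⟩ := h'
  exact ⟨z + z', add_mem hz hz', by linear_combination e + e'⟩

lemma Cong.sub {x y x' y' : Qt} (h : Cong x y) (h' : Cong x' y') : Cong (x - x') (y - y') := by
  obtain ⟨z, hz, e⟩ := h
  obtain ⟨z', hz', e'⟩ := h'
  exact ⟨z - z', sub_mem hz hz', by linear_combination e - e'⟩

lemma Cong.mul {x y x' y' : Qt} (h : Cong x y) (h' : Cong x' y') (hx' : x' ∈ laurent)
    (hy : y ∈ laurent) : Cong (x * x') (y * y') := by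
  obtain ⟨z, hz, e⟩ := h
  obtain ⟨z', hz', e'⟩ := h'
  exact ⟨z * x' + y * z', add_mem (mul_mem hz hx') (mul_mem hy hz'), by
    linear_combination x' * e + y * e'⟩

/-! ### The function `t^k + t^{-k}` near `t = 1` -/

/-- `c_k = t^k + t^{-k} - 2`. -/
noncomputable def cc (k : ℤ) : Qt := T ^ k + T ^ (-k) - 2

lemma cc_one : cc 1 = T + T⁻¹ - 2 := by simp [cc]

lemma cc_one_cube : (cc 1) ^ 3 = (1 - T) ^ 6 * (T ^ (-3 : ℤ)) := by
  rw [cc_one]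
  have h := T_ne_zero
  have : T ^ (-3 : ℤ) = (T⁻¹) ^ 3 := by
    rw [zpow_neg, inv_pow]; norm_cast
  rw [this]
  field_simp
  ring

lemma cc_mem (k : ℤ) : cc k ∈ laurent := by
  have h2 : (2 : Qt) ∈ laurent := by exact_mod_cast natCast_mem laurent 2
  exact sub_mem (add_mem (T_zpow_mem k) (T_zpow_mem (-k))) h2

lemma cc_succ (k : ℤ) : cc (k + 1) = 2 * cc k - cc (k - 1) + 2 * cc 1 + cc 1 * cc k := by
  have h := T_ne_zero
  unfold cc
  have e1 : T ^ (k + 1) = T ^ k * T := by rw [zpow_add₀ h, zpow_one]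
  have e2 : T ^ (-(k + 1)) = T ^ (-k) * T⁻¹ := by
    rw [neg_add, zpow_add₀ h, zpow_neg_one]
  have e3 : T ^ (k - 1) = T ^ k * T⁻¹ := by rw [zpow_sub₀ h, zpow_one, div_eq_mul_inv]
  have e4 : T ^ (-(k - 1)) = T ^ (-k) * T := by
    rw [neg_sub, sub_eq_add_neg, add_comm, zpow_add₀ h, zpow_one]
  have e5 : T ^ (1 : ℤ) = T := zpow_one T
  have e6 : T ^ (-1 : ℤ) = T⁻¹ := zpow_neg_one T
  rw [e1, e2, e3, e4, e5, e6]
  ring

/-- Expansion of `c_k` to second order in `c_1`. -/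
lemma cc_expand (k : ℤ) : ∃ m : ℤ, ∃ r ∈ laurent, 12 * m = k ^ 4 - k ^ 2 ∧
    cc k = (k : Qt) ^ 2 * cc 1 + (m : Qt) * cc 1 ^ 2 + r * cc 1 ^ 3 := by
  have key : ∀ n : ℕ, (∃ m : ℤ, ∃ r ∈ laurent, 12 * m = (n : ℤ) ^ 4 - (n : ℤ) ^ 2 ∧
      cc n = ((n : ℤ) : Qt) ^ 2 * cc 1 + (m : Qt) * cc 1 ^ 2 + r * cc 1 ^ 3) ∧
      (∃ m : ℤ, ∃ r ∈ laurent, 12 * m = ((n : ℤ) + 1) ^ 4 - ((n : ℤ) + 1) ^ 2 ∧
      cc ((n : ℤ) + 1) = (((n : ℤ) + 1 : ℤ) : Qt) ^ 2 * cc 1 + (m : Qt) * cc 1 ^ 2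
        + r * cc 1 ^ 3) := by
    intro n
    induction n with
    | zero =>
      refine ⟨⟨0, 0, zero_mem _, by norm_num, ?_⟩, ⟨0, 0, zero_mem _, by norm_num, ?_⟩⟩
      · simp [cc]; norm_num
      · norm_num
    | succ n ih =>
      obtain ⟨⟨m, r, hr, hm, e⟩, ⟨m', r', hr', hm', e'⟩⟩ := ih
      refine ⟨⟨m', r', hr', by push_cast; linarith, by push_cast at e' ⊢; exact e'⟩, ?_⟩
      have h2 : (2 : Qt) ∈ laurent := by exact_mod_cast natCast_mem laurent 2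
      refine ⟨2 * m' - m + ((n : ℤ) + 1) ^ 2, 2 * r' - r + (m' : Qt) + r' * cc 1, ?_, ?_, ?_⟩
      · exact add_mem (add_mem (sub_mem (mul_mem h2 hr') hr) (intCast_mem laurent m'))
          (mul_mem hr' (cc_mem 1))
      · push_cast
        linear_combination 2 * hm' - hm
      · have h := cc_succ ((n : ℤ) + 1)
        rw [show (n : ℤ) + 1 - 1 = n by ring] at h
        push_cast at *
        rw [h, e, e']
        ring
  obtain ⟨n, rfl | rfl⟩ := k.eq_nat_or_neg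
  · exact (key n).1
  · obtain ⟨m, r, hr, hm, e⟩ := (key n).1
    refine ⟨m, r, hr, by linear_combination hm, ?_⟩
    have : cc (-(n : ℤ)) = cc n := by unfold cc; rw [neg_neg]; ring
    rw [this, e]
    push_cast
    ring

/-- Two zero-sum triples with the same sum of squares give congruent characters. -/
lemma cong_sum {a₁ a₂ a₃ b₁ b₂ b₃ : ℤ} (ha : a₁ + a₂ + a₃ = 0) (hb : b₁ + b₂ + b₃ = 0)
    (h : a₁ ^ 2 + a₂ ^ 2 + a₃ ^ 2 = b₁ ^ 2 + b₂ ^ 2 + b₃ ^ 2) :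
    Cong (cc a₁ + cc a₂ + cc a₃) (cc b₁ + cc b₂ + cc b₃) := by
  obtain ⟨m₁, r₁, hr₁, hm₁, e₁⟩ := cc_expand a₁
  obtain ⟨m₂, r₂, hr₂, hm₂, e₂⟩ := cc_expand a₂
  obtain ⟨m₃, r₃, hr₃, hm₃, e₃⟩ := cc_expand a₃
  obtain ⟨n₁, s₁, hs₁, hn₁, f₁⟩ := cc_expand b₁
  obtain ⟨n₂, s₂, hs₂, hn₂, f₂⟩ := cc_expand b₂
  obtain ⟨n₃, s₃, hs₃, hn₃, f₃⟩ := cc_expand b₃
  have h4a : 2 * (a₁ ^ 4 + a₂ ^ 4 + a₃ ^ 4) = (a₁ ^ 2 + a₂ ^ 2 + a₃ ^ 2) ^ 2 := by
    have : a₃ = -a₁ - a₂ := by linarith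
    subst this; ring
  have h4b : 2 * (b₁ ^ 4 + b₂ ^ 4 + b₃ ^ 4) = (b₁ ^ 2 + b₂ ^ 2 + b₃ ^ 2) ^ 2 := by
    have : b₃ = -b₁ - b₂ := by linarith
    subst this; ring
  have h4 : a₁ ^ 4 + a₂ ^ 4 + a₃ ^ 4 = b₁ ^ 4 + b₂ ^ 4 + b₃ ^ 4 := by
    have : 2 * (a₁ ^ 4 + a₂ ^ 4 + a₃ ^ 4) = 2 * (b₁ ^ 4 + b₂ ^ 4 + b₃ ^ 4) := by
      rw [h4a, h4b, h]
    linarith
  have hm : m₁ + m₂ + m₃ = n₁ + n₂ + n₃ := by linarith
  refine ⟨T ^ (-3 : ℤ) * (r₁ + r₂ + r₃ - s₁ - s₂ - s₃), mul_mem (T_zpow_mem _)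
    (sub_mem (sub_mem (sub_mem (add_mem (add_mem hr₁ hr₂) hr₃) hs₁) hs₂) hs₃), ?_⟩
  have hq : (a₁ : Qt) ^ 2 + (a₂ : Qt) ^ 2 + (a₃ : Qt) ^ 2
      = (b₁ : Qt) ^ 2 + (b₂ : Qt) ^ 2 + (b₃ : Qt) ^ 2 := by exact_mod_cast h
  have hmq : (m₁ : Qt) + m₂ + m₃ = (n₁ : Qt) + n₂ + n₃ := by exact_mod_cast hm
  rw [← mul_assoc, ← cc_one_cube, e₁, e₂, e₃, f₁, f₂, f₃]
  linear_combination cc 1 * hq + cc 1 ^ 2 * hmq

/-! ### Values of symmetric functions at the four fixed points -/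

/-- `E_1 = t^{a_1} + t^{a_2} + t^{a_3}`. -/
noncomputable def EE (a₁ a₂ a₃ : ℤ) : Qt := T ^ a₁ + T ^ a₂ + T ^ a₃

lemma EE_mem (a₁ a₂ a₃ : ℤ) : EE a₁ a₂ a₃ ∈ laurent :=
  add_mem (add_mem (T_zpow_mem _) (T_zpow_mem _)) (T_zpow_mem _)

/-- Values of one symmetric function at the four points `(C, a)`, `(C, -a)`, `(C, b)`,
`(C, -b)`. Here `x y` are `E_1(a), E_1(-a)` and `x' y'` are `E_1(b), E_1(-b)`. -/
def Good (x y x' y' : Qt) (v₁ v₂ v₃ v₄ : Qt) : Prop :=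
  ∃ A ∈ laurent, ∃ B ∈ laurent, ∃ A' ∈ laurent, ∃ B' ∈ laurent,
    v₁ = A + x * B ∧ v₂ = A + y * B ∧ v₃ = A' + x' * B' ∧ v₄ = A' + y' * B' ∧
    Cong A A' ∧ Cong B B'

section Good

variable {x y x' y' : Qt}

lemma Good.const {c : Qt} (hc : c ∈ laurent) : Good x y x' y' c c c c :=
  ⟨c, hc, 0, zero_mem _, c, hc, 0, zero_mem _, by ring, by ring, by ring, by ring,
    Cong.refl _, Cong.refl _⟩

lemma Good.add {v₁ v₂ v₃ v₄ w₁ w₂ w₃ w₄ : Qt} (hv : Good x y x' y' v₁ v₂ v₃ v₄)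
    (hw : Good x y x' y' w₁ w₂ w₃ w₄) :
    Good x y x' y' (v₁ + w₁) (v₂ + w₂) (v₃ + w₃) (v₄ + w₄) := by
  obtain ⟨A, hA, B, hB, A', hA', B', hB', e1, e2, e3, e4, c1, c2⟩ := hv
  obtain ⟨C, hC, D, hD, C', hC', D', hD', f1, f2, f3, f4, d1, d2⟩ := hw
  exact ⟨A + C, add_mem hA hC, B + D, add_mem hB hD, A' + C', add_mem hA' hC', B' + D',
    add_mem hB' hD', by rw [e1, f1]; ring, by rw [e2, f2]; ring, by rw [e3, f3]; ring,
    by rw [e4, f4]; ring, c1.add d1, c2.add d2⟩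

lemma Good.mul (hx : x ∈ laurent) (hy : y ∈ laurent) (hx' : x' ∈ laurent) (hy' : y' ∈ laurent)
    (hS : Cong (x + y) (x' + y')) (hP : Cong (x * y) (x' * y'))
    {v₁ v₂ v₃ v₄ w₁ w₂ w₃ w₄ : Qt} (hv : Good x y x' y' v₁ v₂ v₃ v₄)
    (hw : Good x y x' y' w₁ w₂ w₃ w₄) :
    Good x y x' y' (v₁ * w₁) (v₂ * w₂) (v₃ * w₃) (v₄ * w₄) := by
  obtain ⟨A, hA, B, hB, A', hA', B', hB', e1, e2, e3, e4, c1, c2⟩ := hv
  obtain ⟨C, hC, D, hD, C', hC', D', hD', f1, f2, f3, f4, d1, d2⟩ := hw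
  have mS := add_mem hx hy
  have mP := mul_mem hx hy
  have mS' := add_mem hx' hy'
  have mP' := mul_mem hx' hy'
  refine ⟨A * C - (x * y) * (B * D), sub_mem (mul_mem hA hC) (mul_mem mP (mul_mem hB hD)),
    A * D + B * C + (x + y) * (B * D),
    add_mem (add_mem (mul_mem hA hD) (mul_mem hB hC)) (mul_mem mS (mul_mem hB hD)),
    A' * C' - (x' * y') * (B' * D'), sub_mem (mul_mem hA' hC') (mul_mem mP' (mul_mem hB' hD')),
    A' * D' + B' * C' + (x' + y') * (B' * D'),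
    add_mem (add_mem (mul_mem hA' hD') (mul_mem hB' hC')) (mul_mem mS' (mul_mem hB' hD')),
    by rw [e1, f1]; ring, by rw [e2, f2]; ring, by rw [e3, f3]; ring, by rw [e4, f4]; ring,
    ?_, ?_⟩
  · exact (c1.mul d1 hC hA').sub (hP.mul (c2.mul d2 hD hB') (mul_mem hB hD) mP')
  · exact ((c1.mul d2 hD hA').add (c2.mul d1 hC hB')).add
      (hS.mul (c2.mul d2 hD hB') (mul_mem hB hD) mS')

/-- Linear expressions `α + β x + γ y`. -/
lemma Good.linear (hx : x ∈ laurent) (hy : y ∈ laurent) (hx' : x' ∈ laurent)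
    (hy' : y' ∈ laurent) (hS : Cong (x + y) (x' + y')) {α β γ : Qt} (hα : α ∈ laurent)
    (hβ : β ∈ laurent) (hγ : γ ∈ laurent) :
    Good x y x' y' (α + β * x + γ * y) (α + β * y + γ * x) (α + β * x' + γ * y')
      (α + β * y' + γ * x') := by
  refine ⟨α + γ * (x + y), add_mem hα (mul_mem hγ (add_mem hx hy)), β - γ, sub_mem hβ hγ,
    α + γ * (x' + y'), add_mem hα (mul_mem hγ (add_mem hx' hy')), β - γ, sub_mem hβ hγ,
    by ring, by ring, by ring, by ring, ?_, Cong.refl _⟩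
  exact (Cong.refl α).add ((Cong.refl γ).mul hS (add_mem hx hy) hγ)

end Good

/-- Symmetric functions of `C ∪ {t^{a_1}, t^{a_2}, t^{a_3}}`: the elementary ones are linear
in `E_1(a), E_1(-a)`, with coefficients independent of `a`. -/
lemma esymm_cons' (a : Qt) (s : Multiset Qt) (k : ℕ) :
    (a ::ₘ s).esymm (k + 1) = s.esymm (k + 1) + a * s.esymm k := by
  unfold Multiset.esymm
  rw [Multiset.powersetCard_cons, Multiset.map_add, Multiset.sum_add, Multiset.map_map]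
  congr 1
  rw [← Multiset.sum_map_mul_left]
  congr 1
  apply Multiset.map_congr rfl
  intro u _
  simp

lemma esymm_zero' (s : Multiset Qt) : s.esymm 0 = 1 := by
  simp [Multiset.esymm]

/-- The multiset of the three characters. -/
noncomputable def tri (a₁ a₂ a₃ : ℤ) : Multiset Qt := T ^ a₁ ::ₘ T ^ a₂ ::ₘ T ^ a₃ ::ₘ 0

lemma esymm_empty (k : ℕ) : (0 : Multiset Qt).esymm (k + 1) = 0 := by
  simp [Multiset.esymm]

lemma esymm_single_one (a : Qt) : (a ::ₘ 0).esymm 1 = a := by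
  rw [show (1 : ℕ) = 0 + 1 from rfl, esymm_cons', esymm_zero', esymm_empty]
  ring

lemma esymm_single_large (a : Qt) (k : ℕ) : (a ::ₘ 0).esymm (k + 2) = 0 := by
  rw [show k + 2 = (k + 1) + 1 from rfl, esymm_cons', esymm_empty, esymm_empty]
  ring

lemma esymm_pair_one (a b : Qt) : (a ::ₘ b ::ₘ 0).esymm 1 = a + b := by
  rw [show (1 : ℕ) = 0 + 1 from rfl, esymm_cons', esymm_zero',
    show (0 : ℕ) + 1 = 1 from rfl, esymm_single_one]
  ring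

lemma esymm_pair_two (a b : Qt) : (a ::ₘ b ::ₘ 0).esymm 2 = a * b := by
  rw [show (2 : ℕ) = 1 + 1 from rfl, esymm_cons', esymm_single_one,
    show (1 : ℕ) + 1 = 0 + 2 from rfl, esymm_single_large]
  ring

lemma esymm_pair_large (a b : Qt) (k : ℕ) : (a ::ₘ b ::ₘ 0).esymm (k + 3) = 0 := by
  rw [show k + 3 = (k + 2) + 1 from rfl, esymm_cons']
  have h1 := esymm_single_large b (k + 1)
  have h2 := esymm_single_large b k
  rw [show k + 1 + 2 = k + 2 + 1 from rfl] at h1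
  rw [h1, h2]
  ring

lemma esymm_tri_one (a₁ a₂ a₃ : ℤ) : (tri a₁ a₂ a₃).esymm 1 = EE a₁ a₂ a₃ := by
  unfold tri EE
  rw [show (1 : ℕ) = 0 + 1 from rfl, esymm_cons', esymm_zero',
    show (0 : ℕ) + 1 = 1 from rfl, esymm_pair_one]
  ring

lemma esymm_tri_two {a₁ a₂ a₃ : ℤ} (h : a₁ + a₂ + a₃ = 0) :
    (tri a₁ a₂ a₃).esymm 2 = EE (-a₁) (-a₂) (-a₃) := by
  unfold tri EE
  have hT := T_ne_zero
  have e1 : T ^ (-a₁) = T ^ a₂ * T ^ a₃ := by rw [← zpow_add₀ hT]; congr 1; linarith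
  have e2 : T ^ (-a₂) = T ^ a₁ * T ^ a₃ := by rw [← zpow_add₀ hT]; congr 1; linarith
  have e3 : T ^ (-a₃) = T ^ a₁ * T ^ a₂ := by rw [← zpow_add₀ hT]; congr 1; linarith
  rw [show (2 : ℕ) = 1 + 1 from rfl, esymm_cons', esymm_pair_one,
    show (1 : ℕ) + 1 = 2 from rfl, esymm_pair_two, e1, e2, e3]
  ring

lemma esymm_tri_three {a₁ a₂ a₃ : ℤ} (h : a₁ + a₂ + a₃ = 0) :
    (tri a₁ a₂ a₃).esymm 3 = 1 := by
  unfold tri
  have hT := T_ne_zero
  have e : T ^ a₁ * (T ^ a₂ * T ^ a₃) = 1 := by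
    rw [← zpow_add₀ hT, ← zpow_add₀ hT, show a₁ + (a₂ + a₃) = 0 by linarith, zpow_zero]
  rw [show (3 : ℕ) = 2 + 1 from rfl, esymm_cons', esymm_pair_two,
    show (2 : ℕ) + 1 = 0 + 3 from rfl, esymm_pair_large, zero_add]
  exact e

lemma esymm_tri_large (a₁ a₂ a₃ : ℤ) (k : ℕ) : (tri a₁ a₂ a₃).esymm (k + 4) = 0 := by
  unfold tri
  rw [show k + 4 = (k + 3) + 1 from rfl, esymm_cons']
  have h1 := esymm_pair_large (T ^ a₂) (T ^ a₃) (k + 1)
  have h2 := esymm_pair_large (T ^ a₂) (T ^ a₃) k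
  rw [show k + 1 + 3 = k + 3 + 1 from rfl] at h1
  rw [h1, h2]
  ring

/-- The multiset `{t, ..., t, t^{a_1}, t^{a_2}, t^{a_3}}` with `c` copies of `t`. -/
noncomputable def full (c : ℕ) (a₁ a₂ a₃ : ℤ) : Multiset Qt :=
  Multiset.replicate c T + tri a₁ a₂ a₃

lemma full_succ (c : ℕ) (a₁ a₂ a₃ : ℤ) : full (c + 1) a₁ a₂ a₃ = T ::ₘ full c a₁ a₂ a₃ := by
  unfold full
  rw [Multiset.replicate_succ, Multiset.cons_add]

/-- The coefficients of the elementary symmetric functions as linear functions of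
`E_1(a), E_1(-a)` do not depend on `a`. -/
lemma esymm_full (c k : ℕ) : ∃ α ∈ laurent, ∃ β ∈ laurent, ∃ γ ∈ laurent,
    ∀ a₁ a₂ a₃ : ℤ, a₁ + a₂ + a₃ = 0 →
      (full c a₁ a₂ a₃).esymm k = α + β * EE a₁ a₂ a₃ + γ * EE (-a₁) (-a₂) (-a₃) := by
  induction c generalizing k with
  | zero =>
    have h0 : ∀ a₁ a₂ a₃ : ℤ, full 0 a₁ a₂ a₃ = tri a₁ a₂ a₃ := by
      intro a₁ a₂ a₃; simp [full]
    match k with
    | 0 => exact ⟨1, one_mem _, 0, zero_mem _, 0, zero_mem _, fun a₁ a₂ a₃ h => by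
        rw [h0, esymm_zero']; ring⟩
    | 1 => exact ⟨0, zero_mem _, 1, one_mem _, 0, zero_mem _, fun a₁ a₂ a₃ h => by
        rw [h0, esymm_tri_one]; ring⟩
    | 2 => exact ⟨0, zero_mem _, 0, zero_mem _, 1, one_mem _, fun a₁ a₂ a₃ h => by
        rw [h0, esymm_tri_two h]; ring⟩
    | 3 => exact ⟨1, one_mem _, 0, zero_mem _, 0, zero_mem _, fun a₁ a₂ a₃ h => by
        rw [h0, esymm_tri_three h]; ring⟩
    | k + 4 => exact ⟨0, zero_mem _, 0, zero_mem _, 0, zero_mem _, fun a₁ a₂ a₃ h => by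
        rw [h0, esymm_tri_large]; ring⟩
  | succ c ih =>
    match k with
    | 0 => exact ⟨1, one_mem _, 0, zero_mem _, 0, zero_mem _, fun a₁ a₂ a₃ h => by
        rw [esymm_zero']; ring⟩
    | k + 1 =>
      obtain ⟨α, hα, β, hβ, γ, hγ, e⟩ := ih (k + 1)
      obtain ⟨α', hα', β', hβ', γ', hγ', e'⟩ := ih k
      refine ⟨α + T * α', add_mem hα (mul_mem T_mem hα'), β + T * β',
        add_mem hβ (mul_mem T_mem hβ'), γ + T * γ', add_mem hγ (mul_mem T_mem hγ'), ?_⟩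
      intro a₁ a₂ a₃ h
      rw [full_succ, esymm_cons', e _ _ _ h, e' _ _ _ h]
      ring

/-- The weights `(1, 1, 1, 1, 1, 1, a_1, a_2, a_3)`. -/
def wt (a₁ a₂ a₃ : ℤ) : Fin 9 → ℤ := ![1, 1, 1, 1, 1, 1, a₁, a₂, a₃]

lemma map_wt (a₁ a₂ a₃ : ℤ) :
    Finset.univ.val.map (fun i => T ^ wt a₁ a₂ a₃ i) = full 6 a₁ a₂ a₃ := by
  have : (Finset.univ : Finset (Fin 9)).val
      = 0 ::ₘ 1 ::ₘ 2 ::ₘ 3 ::ₘ 4 ::ₘ 5 ::ₘ 6 ::ₘ 7 ::ₘ 8 ::ₘ 0 := by decide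
  rw [this]
  simp only [Multiset.map_cons, Multiset.map_zero]
  have e : ∀ a : Qt, ∀ s : Multiset Qt, a ::ₘ s = {a} + s := fun a s =>
    (Multiset.singleton_add a s).symm
  simp only [full, tri, Multiset.replicate_succ, Multiset.replicate_zero, e, add_zero]
  have w0 : wt a₁ a₂ a₃ 0 = 1 := rfl
  have w1 : wt a₁ a₂ a₃ 1 = 1 := rfl
  have w2 : wt a₁ a₂ a₃ 2 = 1 := rfl
  have w3 : wt a₁ a₂ a₃ 3 = 1 := rfl
  have w4 : wt a₁ a₂ a₃ 4 = 1 := rfl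
  have w5 : wt a₁ a₂ a₃ 5 = 1 := rfl
  have w6 : wt a₁ a₂ a₃ 6 = a₁ := rfl
  have w7 : wt a₁ a₂ a₃ 7 = a₂ := rfl
  have w8 : wt a₁ a₂ a₃ 8 = a₃ := rfl
  rw [w0, w1, w2, w3, w4, w5, w6, w7, w8]
  simp only [zpow_one]
  abel

lemma aeval_esymm_wt (a₁ a₂ a₃ : ℤ) (k : ℕ) :
    aeval (fun i => T ^ wt a₁ a₂ a₃ i) (esymm (Fin 9) ℤ k) = (full 6 a₁ a₂ a₃).esymm k := by
  rw [aeval_esymm_eq_multiset_esymm, map_wt]

/-- The values of a symmetric Laurent polynomial at the four points `(1^6, a)`, `(1^6, -a)`,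
`(1^6, b)`, `(1^6, -b)`. -/
lemma good_aeval {a₁ a₂ a₃ b₁ b₂ b₃ : ℤ} (ha : a₁ + a₂ + a₃ = 0) (hb : b₁ + b₂ + b₃ = 0)
    (hS : Cong (EE a₁ a₂ a₃ + EE (-a₁) (-a₂) (-a₃)) (EE b₁ b₂ b₃ + EE (-b₁) (-b₂) (-b₃)))
    (hP : Cong (EE a₁ a₂ a₃ * EE (-a₁) (-a₂) (-a₃)) (EE b₁ b₂ b₃ * EE (-b₁) (-b₂) (-b₃)))
    (f : MvPolynomial (Fin 9) ℤ) (hf : f.IsSymmetric) :
    Good (EE a₁ a₂ a₃) (EE (-a₁) (-a₂) (-a₃)) (EE b₁ b₂ b₃) (EE (-b₁) (-b₂) (-b₃))
      (aeval (fun i => T ^ wt a₁ a₂ a₃ i) f) (aeval (fun i => T ^ wt (-a₁) (-a₂) (-a₃) i) f)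
      (aeval (fun i => T ^ wt b₁ b₂ b₃ i) f) (aeval (fun i => T ^ wt (-b₁) (-b₂) (-b₃) i) f) := by
  obtain ⟨F, hF⟩ := esymmAlgHom_fin_surjective ℤ (le_refl 9) ⟨f, hf⟩
  have hF' : aeval (fun i : Fin 9 ↦ esymm (Fin 9) ℤ (i + 1)) F = f := by
    rw [← esymmAlgHom_apply, hF]
  rw [← hF']
  clear hF hF' hf
  have hna : -a₁ + -a₂ + -a₃ = 0 := by linarith
  have hnb : -b₁ + -b₂ + -b₃ = 0 := by linarith
  induction F using MvPolynomial.induction_on with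
  | C c =>
    simp only [algHom_C]
    simp only [AlgHom.commutes]
    exact Good.const (by simp)
  | add p q hp hq =>
    simp only [map_add]
    exact hp.add hq
  | mul_X p i hp =>
    simp only [map_mul, aeval_X]
    refine Good.mul (EE_mem _ _ _) (EE_mem _ _ _) (EE_mem _ _ _) (EE_mem _ _ _) hS hP hp ?_
    simp only [aeval_esymm_wt]
    obtain ⟨α, hα, β, hβ, γ, hγ, e⟩ := esymm_full 6 ((i : ℕ) + 1)
    rw [e _ _ _ ha, e _ _ _ hb, e _ _ _ hna, e _ _ _ hnb]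
    simp only [neg_neg]
    exact Good.linear (EE_mem _ _ _) (EE_mem _ _ _) (EE_mem _ _ _) (EE_mem _ _ _) hS hα hβ hγ

/-- The sum of the two characters. -/
lemma EE_add (a₁ a₂ a₃ : ℤ) :
    EE a₁ a₂ a₃ + EE (-a₁) (-a₂) (-a₃) = 6 + (cc a₁ + cc a₂ + cc a₃) := by
  unfold EE cc
  ring

/-- The product of the two characters. -/
lemma EE_mul (a₁ a₂ a₃ : ℤ) :
    EE a₁ a₂ a₃ * EE (-a₁) (-a₂) (-a₃)
      = 9 + (cc (a₁ - a₂) + cc (a₂ - a₃) + cc (a₃ - a₁)) := by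
  unfold EE cc
  have hT := T_ne_zero
  simp only [sub_eq_add_neg, neg_add, neg_neg, zpow_add₀ hT, zpow_neg]
  have h1 : T ^ a₁ ≠ 0 := zpow_ne_zero _ hT
  have h2 : T ^ a₂ ≠ 0 := zpow_ne_zero _ hT
  have h3 : T ^ a₃ ≠ 0 := zpow_ne_zero _ hT
  field_simp
  ring

lemma cong_EE_add {a₁ a₂ a₃ b₁ b₂ b₃ : ℤ} (ha : a₁ + a₂ + a₃ = 0) (hb : b₁ + b₂ + b₃ = 0)
    (h : a₁ ^ 2 + a₂ ^ 2 + a₃ ^ 2 = b₁ ^ 2 + b₂ ^ 2 + b₃ ^ 2) :
    Cong (EE a₁ a₂ a₃ + EE (-a₁) (-a₂) (-a₃)) (EE b₁ b₂ b₃ + EE (-b₁) (-b₂) (-b₃)) := by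
  rw [EE_add, EE_add]
  exact (Cong.refl 6).add (cong_sum ha hb h)

lemma cong_EE_mul {a₁ a₂ a₃ b₁ b₂ b₃ : ℤ} (ha : a₁ + a₂ + a₃ = 0) (hb : b₁ + b₂ + b₃ = 0)
    (h : a₁ ^ 2 + a₂ ^ 2 + a₃ ^ 2 = b₁ ^ 2 + b₂ ^ 2 + b₃ ^ 2) :
    Cong (EE a₁ a₂ a₃ * EE (-a₁) (-a₂) (-a₃)) (EE b₁ b₂ b₃ * EE (-b₁) (-b₂) (-b₃)) := by
  rw [EE_mul, EE_mul]
  refine (Cong.refl 9).add (cong_sum (by ring) (by ring) ?_)
  have e1 : a₃ = -a₁ - a₂ := by linarith
  have e2 : b₃ = -b₁ - b₂ := by linarith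
  subst e1 e2
  linear_combination 3 * h

/-- The product `(1 - t^{-a_1}) (1 - t^{-a_2}) (1 - t^{-a_3})`. -/
lemma delta {a₁ a₂ a₃ : ℤ} (h : a₁ + a₂ + a₃ = 0) :
    (1 - T ^ (-a₁)) * (1 - T ^ (-a₂)) * (1 - T ^ (-a₃))
      = EE a₁ a₂ a₃ - EE (-a₁) (-a₂) (-a₃) := by
  unfold EE
  have hT := T_ne_zero
  have e1 : T ^ a₁ = T ^ (-a₂) * T ^ (-a₃) := by rw [← zpow_add₀ hT]; congr 1; linarith
  have e2 : T ^ a₂ = T ^ (-a₁) * T ^ (-a₃) := by rw [← zpow_add₀ hT]; congr 1; linarith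
  have e3 : T ^ a₃ = T ^ (-a₁) * T ^ (-a₂) := by rw [← zpow_add₀ hT]; congr 1; linarith
  have e4 : T ^ (-a₁) * (T ^ (-a₂) * T ^ (-a₃)) = 1 := by
    rw [← zpow_add₀ hT, ← zpow_add₀ hT, show -a₁ + (-a₂ + -a₃) = 0 by linarith, zpow_zero]
  rw [e1, e2, e3]
  linear_combination -e4

lemma delta_ne_zero {a₁ a₂ a₃ : ℤ} (h : a₁ + a₂ + a₃ = 0) (h1 : a₁ ≠ 0) (h2 : a₂ ≠ 0)
    (h3 : a₃ ≠ 0) : EE a₁ a₂ a₃ - EE (-a₁) (-a₂) (-a₃) ≠ 0 := by
  rw [← delta h]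
  have key : ∀ k : ℤ, k ≠ 0 → 1 - T ^ (-k) ≠ 0 := fun k hk e =>
    T_zpow_ne_one (neg_ne_zero.mpr hk) (by linear_combination -e)
  exact mul_ne_zero (mul_ne_zero (key _ h1) (key _ h2)) (key _ h3)

lemma prod_wt {a₁ a₂ a₃ : ℤ} (h : a₁ + a₂ + a₃ = 0) :
    ∏ i, (1 - T ^ (-wt a₁ a₂ a₃ i)) = (1 - T⁻¹) ^ 6 * (EE a₁ a₂ a₃ - EE (-a₁) (-a₂) (-a₃)) := by
  rw [← delta h]
  simp only [Fin.prod_univ_succ, Fin.prod_univ_zero, wt]
  simp
  ring

lemma sum_wt {a₁ a₂ a₃ : ℤ} (h : a₁ + a₂ + a₃ = 0) : ∑ i, wt a₁ a₂ a₃ i = 6 := by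
  simp only [Fin.sum_univ_succ, Fin.sum_univ_zero, wt]
  simp
  linarith

/-- Integrality of the four-point sums. -/
lemma four_sum_mem {a₁ a₂ a₃ b₁ b₂ b₃ : ℤ} (ha : a₁ + a₂ + a₃ = 0) (hb : b₁ + b₂ + b₃ = 0)
    (h : a₁ ^ 2 + a₂ ^ 2 + a₃ ^ 2 = b₁ ^ 2 + b₂ ^ 2 + b₃ ^ 2)
    (ha1 : a₁ ≠ 0) (ha2 : a₂ ≠ 0) (ha3 : a₃ ≠ 0) (hb1 : b₁ ≠ 0) (hb2 : b₂ ≠ 0) (hb3 : b₃ ≠ 0)
    (f : MvPolynomial (Fin 9) ℤ) (hf : f.IsSymmetric) (k : ℤ) :
    aeval (fun i => T ^ wt a₁ a₂ a₃ i) f * T ^ (k * 6) / ∏ i, (1 - T ^ (-wt a₁ a₂ a₃ i))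
    + aeval (fun i => T ^ wt (-a₁) (-a₂) (-a₃) i) f * T ^ (k * 6)
        / ∏ i, (1 - T ^ (-wt (-a₁) (-a₂) (-a₃) i))
    - aeval (fun i => T ^ wt b₁ b₂ b₃ i) f * T ^ (k * 6) / ∏ i, (1 - T ^ (-wt b₁ b₂ b₃ i))
    - aeval (fun i => T ^ wt (-b₁) (-b₂) (-b₃) i) f * T ^ (k * 6)
        / ∏ i, (1 - T ^ (-wt (-b₁) (-b₂) (-b₃) i)) ∈ laurent := by
  obtain ⟨A, hA, B, hB, A', hA', B', hB', e1, e2, e3, e4, c1, c2⟩ :=
    good_aeval ha hb (cong_EE_add ha hb h) (cong_EE_mul ha hb h) f hf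
  obtain ⟨z, hz, ez⟩ := c2
  have hna : -a₁ + -a₂ + -a₃ = 0 := by linarith
  have hnb : -b₁ + -b₂ + -b₃ = 0 := by linarith
  rw [prod_wt ha, prod_wt hb, prod_wt hna, prod_wt hnb, e1, e2, e3, e4]
  simp only [neg_neg]
  have da := delta_ne_zero ha ha1 ha2 ha3
  have db := delta_ne_zero hb hb1 hb2 hb3
  set x := EE a₁ a₂ a₃
  set y := EE (-a₁) (-a₂) (-a₃)
  set x' := EE b₁ b₂ b₃
  set y' := EE (-b₁) (-b₂) (-b₃)
  have hT := T_ne_zero
  have h1 : (1 - T⁻¹) ≠ 0 := by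
    intro e
    have : T⁻¹ = 1 := by linear_combination -e
    exact T_zpow_ne_one (k := 1) one_ne_zero (by rw [zpow_one]; exact inv_eq_one.mp this)
  have hd : y - x ≠ 0 := by
    intro e; apply da; linear_combination -e
  have hd' : y' - x' ≠ 0 := by
    intro e; apply db; linear_combination -e
  have key : (A + x * B) * T ^ (k * 6) / ((1 - T⁻¹) ^ 6 * (x - y))
      + (A + y * B) * T ^ (k * 6) / ((1 - T⁻¹) ^ 6 * (y - x))
      - (A' + x' * B') * T ^ (k * 6) / ((1 - T⁻¹) ^ 6 * (x' - y'))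
      - (A' + y' * B') * T ^ (k * 6) / ((1 - T⁻¹) ^ 6 * (y' - x'))
      = T ^ (k * 6) * (T ^ 6 * z) := by
    have s1 : (A + x * B) * T ^ (k * 6) / ((1 - T⁻¹) ^ 6 * (x - y))
      + (A + y * B) * T ^ (k * 6) / ((1 - T⁻¹) ^ 6 * (y - x))
        = B * T ^ (k * 6) / (1 - T⁻¹) ^ 6 := by
      rw [show y - x = -(x - y) by ring]
      field_simp
      ring
    have s2 : (A' + x' * B') * T ^ (k * 6) / ((1 - T⁻¹) ^ 6 * (x' - y'))
      + (A' + y' * B') * T ^ (k * 6) / ((1 - T⁻¹) ^ 6 * (y' - x'))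
        = B' * T ^ (k * 6) / (1 - T⁻¹) ^ 6 := by
      rw [show y' - x' = -(x' - y') by ring]
      field_simp
      ring
    have s3 : (1 - T) ^ 6 = T ^ 6 * (1 - T⁻¹) ^ 6 := by
      rw [← mul_pow]
      have : T * (1 - T⁻¹) = -(1 - T) := by field_simp; ring
      rw [this]
      ring
    have s4 : (B - B') / (1 - T⁻¹) ^ 6 = T ^ 6 * z := by
      rw [ez, s3, div_eq_iff (pow_ne_zero 6 h1)]
      ring
    linear_combination s1 - s2 + T ^ (k * 6) * s4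
  rw [key]
  exact mul_mem (T_zpow_mem _) (mul_mem (pow_mem T_mem 6) hz)

/-- The four fixed points. -/
def data : FixedPointData 9 4 where
  sign := ![1, 1, -1, -1]
  weight := ![wt 1 9 (-10), wt (-1) (-9) (-(-10)), wt 5 6 (-11), wt (-5) (-6) (-(-11))]
  weight_ne_zero := by decide

lemma data_integral : data.IsIntegral := by
  intro f hf k
  have h := four_sum_mem (a₁ := 1) (a₂ := 9) (a₃ := -10) (b₁ := 5) (b₂ := 6) (b₃ := -11)
    (by norm_num) (by norm_num) (by norm_num) (by norm_num) (by norm_num) (by norm_num)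
    (by norm_num) (by norm_num) (by norm_num) f hf k
  have e : ∑ p, data.contribution f k p =
    aeval (fun i => T ^ wt 1 9 (-10) i) f * T ^ (k * 6) / ∏ i, (1 - T ^ (-wt 1 9 (-10) i))
    + aeval (fun i => T ^ wt (-1) (-9) (-(-10)) i) f * T ^ (k * 6)
        / ∏ i, (1 - T ^ (-wt (-1) (-9) (-(-10)) i))
    - aeval (fun i => T ^ wt 5 6 (-11) i) f * T ^ (k * 6) / ∏ i, (1 - T ^ (-wt 5 6 (-11) i))
    - aeval (fun i => T ^ wt (-5) (-6) (-(-11)) i) f * T ^ (k * 6)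
        / ∏ i, (1 - T ^ (-wt (-5) (-6) (-(-11)) i)) := by
    have g0 : data.weight 0 = wt 1 9 (-10) := rfl
    have g1 : data.weight 1 = wt (-1) (-9) (-(-10)) := rfl
    have g2 : data.weight 2 = wt 5 6 (-11) := rfl
    have g3 : data.weight 3 = wt (-5) (-6) (-(-11)) := rfl
    have t0 : data.sign 0 = 1 := rfl
    have t1 : data.sign 1 = 1 := rfl
    have t2 : data.sign 2 = -1 := rfl
    have t3 : data.sign 3 = -1 := rfl
    have q : ∀ p, data.contribution f k p = (((data.sign p : ℤˣ) : ℤ) : Qt) *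
        aeval (fun i => T ^ data.weight p i) f * T ^ (k * ∑ i, data.weight p i)
        / ∏ i, (1 - T ^ (-data.weight p i)) := fun p => rfl
    simp only [q, Fin.sum_univ_four, g0, g1, g2, g3, t0, t1, t2, t3]
    rw [sum_wt (by norm_num), sum_wt (by norm_num), sum_wt (by norm_num), sum_wt (by norm_num)]
    simp only [Units.val_one, Units.val_neg, Int.cast_one, Int.cast_neg]
    ring
  rw [e]
  exact h

lemma data_effective : data.IsEffective := by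
  intro p
  fin_cases p <;> decide

lemma eval_esymm_three (w : Fin 9 → ℤ) : eval w (esymm (Fin 9) ℤ 3)
    = ∑ t ∈ Finset.powersetCard 3 (Finset.univ : Finset (Fin 9)), ∏ i ∈ t, w i := by
  simp [esymm]

/-- The exponents of the Chern number `c_3 ^ 3`. -/
def expo : Fin 9 → ℕ := ![0, 0, 3, 0, 0, 0, 0, 0, 0]

lemma prod_expo (w : Fin 9 → ℤ) :
    ∏ j : Fin 9, (eval w (esymm (Fin 9) ℤ ((j : ℕ) + 1))) ^ expo j
      = (eval w (esymm (Fin 9) ℤ 3)) ^ 3 := by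
  simp [Fin.prod_univ_succ, expo]

lemma data_chern : data.chernNumber expo = -201600 := by
  have g0 : data.weight 0 = ![1, 1, 1, 1, 1, 1, 1, 9, -10] := rfl
  have g1 : data.weight 1 = ![1, 1, 1, 1, 1, 1, -1, -9, 10] := rfl
  have g2 : data.weight 2 = ![1, 1, 1, 1, 1, 1, 5, 6, -11] := rfl
  have g3 : data.weight 3 = ![1, 1, 1, 1, 1, 1, -5, -6, 11] := rfl
  have t0 : data.sign 0 = 1 := rfl
  have t1 : data.sign 1 = 1 := rfl
  have t2 : data.sign 2 = -1 := rfl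
  have t3 : data.sign 3 = -1 := rfl
  have v0 : eval (data.weight 0) (esymm (Fin 9) ℤ 3) = -616 := by
    rw [eval_esymm_three, g0]; decide +kernel
  have v1 : eval (data.weight 1) (esymm (Fin 9) ℤ 3) = -436 := by
    rw [eval_esymm_three, g1]; decide +kernel
  have v2 : eval (data.weight 2) (esymm (Fin 9) ℤ 3) = -856 := by
    rw [eval_esymm_three, g2]; decide +kernel
  have v3 : eval (data.weight 3) (esymm (Fin 9) ℤ 3) = -196 := by
    rw [eval_esymm_three, g3]; decide +kernel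
  have p0 : ∏ i, data.weight 0 i = -90 := by rw [g0]; decide
  have p1 : ∏ i, data.weight 1 i = 90 := by rw [g1]; decide
  have p2 : ∏ i, data.weight 2 i = -330 := by rw [g2]; decide
  have p3 : ∏ i, data.weight 3 i = 330 := by rw [g3]; decide
  unfold FixedPointData.chernNumber
  rw [Fin.sum_univ_four]
  simp only [prod_expo, v0, v1, v2, v3, p0, p1, p2, p3, t0, t1, t2, t3]
  norm_num

/-- There is isolated fixed point data in complex dimension `9` with exactly `4` fixed points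
(fewer than `[9/2] + 1 = 5`), all of whose `K`-theoretic characteristic numbers are integral, with
greatest common divisor of the weights equal to one at each point, and with the non-zero Chern
number `c_3 ^ 3 = -201600`. The signs and the weights are given explicitly. -/
theorem result : 4 < 9 / 2 + 1 ∧ ∃ D : FixedPointData 9 4,
    D.sign = ![1, 1, -1, -1] ∧
    D.weight = ![![1, 1, 1, 1, 1, 1, 1, 9, -10], ![1, 1, 1, 1, 1, 1, -1, -9, 10],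
      ![1, 1, 1, 1, 1, 1, 5, 6, -11], ![1, 1, 1, 1, 1, 1, -5, -6, 11]] ∧
    D.IsIntegral ∧ D.IsEffective ∧ D.HasNonzeroChernNumber ∧
    D.chernNumber ![0, 0, 3, 0, 0, 0, 0, 0, 0] = -201600 := by
  refine ⟨by norm_num, data, rfl, rfl, data_integral, data_effective,
    ⟨expo, by decide, ?_⟩, data_chern⟩
  rw [data_chern]
  norm_num

end Pool.Agent.Results.MP_05b3ef_gt.FourPoints
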